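import Pool.Agent.Helper23.QF.Goals

/-! # Packet QF-GAP: traces belonging to one field grow geometrically. -/

set_option autoImplicit false

namespace Pool.Agent.Helper27.QF

open Pool.Agent.Helper23.QF

theorem sq_parity (x : ℤ) : x ^ 2 % 2 = x % 2 := by
  rcases Int.emod_two_eq_zero_or_one x with h | h <;> rw [pow_two, Int.mul_emod, h] <;> simp

theorem step (d f f' t t' : ℤ) (hd : 0 ≤ d) (hf : 0 ≤ f) (hf' : 0 ≤ f') (ht : 3 ≤ t)
    (htt : t < t') (h1 : t ^ 2 = d * f ^ 2 + 4) (h2 : t' ^ 2 = d * f' ^ 2 + 4) :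
    3 * t ≤ 2 * t' := by
  have hdf : 5 ≤ d * f ^ 2 := by nlinarith
  have hd0 : 0 < d := by
    rcases hd.lt_or_eq with h | h
    · exact h
    · rw [← h] at hdf
      omega
  have hf0 : 0 < f := by
    rcases hf.lt_or_eq with h | h
    · exact h
    · rw [← h] at hdf
      norm_num at hdf
  have hff : f ^ 2 < f' ^ 2 := by
    have h3 : d * f ^ 2 < d * f' ^ 2 := by nlinarith
    exact lt_of_mul_lt_mul_left h3 hd
  have hff' : f < f' := by
    by_contra hc
    have : f' ^ 2 ≤ f ^ 2 := by nlinarith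
    omega
  have hpar : 2 ∣ t * t' - d * f * f' ∧ 2 ∣ f' * t - f * t' := by
    have e1 : (t - d * f) % 2 = 0 := by
      have a1 : t ^ 2 % 2 = (d * f) % 2 := by
        rw [h1, Int.add_emod, Int.mul_emod, sq_parity f, ← Int.mul_emod]
        simp
      rw [sq_parity] at a1
      omega
    have e2 : (t' - d * f') % 2 = 0 := by
      have a1 : t' ^ 2 % 2 = (d * f') % 2 := by
        rw [h2, Int.add_emod, Int.mul_emod, sq_parity f', ← Int.mul_emod]
        simp
      rw [sq_parity] at a1
      omega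
    obtain ⟨u, hu⟩ := Int.dvd_of_emod_eq_zero e1
    obtain ⟨v, hv⟩ := Int.dvd_of_emod_eq_zero e2
    have ht1 : t = d * f + 2 * u := by linarith
    have ht2 : t' = d * f' + 2 * v := by linarith
    constructor
    · have h3 : 2 ∣ d * (d - 1) := by
        rcases Int.even_or_odd d with h | h
        · exact Dvd.dvd.mul_right h.two_dvd _
        · have : Even (d - 1) := by
            rw [Int.even_sub_one, Int.not_even_iff_odd]
            exact h
          exact Dvd.dvd.mul_left this.two_dvd _
      obtain ⟨c, hc⟩ := h3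
      refine ⟨c * f * f' + d * f * v + u * d * f' + 2 * u * v, ?_⟩
      rw [ht1, ht2]
      linear_combination f * f' * hc
    · refine ⟨f' * u - f * v, ?_⟩
      rw [ht1, ht2]
      ring
  obtain ⟨⟨τ, hτ⟩, ⟨g, hg⟩⟩ := hpar
  have key : τ ^ 2 = 4 + d * g ^ 2 := by
    have h3 : 4 * τ ^ 2 = 4 * (4 + d * g ^ 2) := by
      have h4 : (t * t' - d * f * f') ^ 2 - d * (f' * t - f * t') ^ 2 = 16 := by
        have h5 : (t * t' - d * f * f') ^ 2 - d * (f' * t - f * t') ^ 2 =
            (t ^ 2 - d * f ^ 2) * (t' ^ 2 - d * f' ^ 2) := by ring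
        rw [h5, h1, h2]
        ring
      rw [hτ, hg] at h4
      linarith
    linarith
  have hgpos : 0 < g := by
    have h3 : (f * t') ^ 2 < (f' * t) ^ 2 := by
      have h4 : (f' * t) ^ 2 - (f * t') ^ 2 = 4 * (f' ^ 2 - f ^ 2) := by
        rw [mul_pow, mul_pow, h1, h2]
        ring
      linarith
    have h5 : f * t' < f' * t := by
      by_contra hc
      have h6 : f' * t ≤ f * t' := not_lt.mp hc
      have h7 : 0 ≤ f' * t := mul_nonneg hf' (by linarith)
      have : (f' * t) ^ 2 ≤ (f * t') ^ 2 := by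
        exact pow_le_pow_left₀ h7 h6 2
      linarith
    linarith
  have hτpos : 0 < τ := by
    have h3 : (d * f * f') ^ 2 < (t * t') ^ 2 := by
      have h4 : (t * t') ^ 2 - (d * f * f') ^ 2 = 4 * (d * f ^ 2) + 4 * (d * f' ^ 2) + 16 := by
        rw [mul_pow, h1, h2]
        ring
      have : 0 ≤ d * f' ^ 2 := mul_nonneg hd (sq_nonneg _)
      linarith
    have h5 : d * f * f' < t * t' := by
      by_contra hc
      have h6 : t * t' ≤ d * f * f' := not_lt.mp hc
      have h7 : 0 ≤ t * t' := mul_nonneg (by linarith) (by linarith)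
      have : (t * t') ^ 2 ≤ (d * f * f') ^ 2 := pow_le_pow_left₀ h7 h6 2
      linarith
    linarith
  have hdg : 1 ≤ d * g ^ 2 := by
    have : 0 < d * g ^ 2 := by positivity
    linarith
  have hτ3 : 3 ≤ τ := by
    by_contra hc
    have h3 : τ ≤ 2 := by omega
    have : τ ^ 2 ≤ 2 ^ 2 := pow_le_pow_left₀ hτpos.le h3 2
    linarith
  have hfin : 2 * t' = t * τ + d * f * g := by
    have h3 : 2 * (t * τ + d * f * g) = 4 * t' := by
      have h4 : 2 * (t * τ + d * f * g) = t * (2 * τ) + d * f * (2 * g) := by ring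
      rw [h4, ← hτ, ← hg]
      have h5 : t * (t * t' - d * f * f') + d * f * (f' * t - f * t') =
        t' * (t ^ 2 - d * f ^ 2) := by ring
      rw [h5, h1]
      ring
    linarith
  have h8 : 0 ≤ d * f * g := by positivity
  nlinarith

theorem gGAP : GGAP := by
  intro d
  have main : ∀ n : ℕ, ∀ (T : ℕ) (S : Finset ℕ), 1 ≤ T → S.card = n →
      (∀ t ∈ S, 3 ≤ t ∧ t ≤ T ∧ ∃ f : ℕ, t ^ 2 = d * f ^ 2 + 4) → ((3 : ℝ) / 2) ^ n ≤ T := by
    intro n
    induction n with
    | zero =>
      intro T S hT _ _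
      simpa using hT
    | succ n ih =>
      intro T S hT hc hS
      have hne : S.Nonempty := by
        rw [← Finset.card_pos]
        omega
      set m := S.max' hne with hm
      have hmS : m ∈ S := S.max'_mem hne
      obtain ⟨hm3, hmT, f', hf'⟩ := hS m hmS
      have h1 : ((3 : ℝ) / 2) ^ n ≤ ((2 * m / 3 : ℕ) : ℝ) := by
        apply ih (2 * m / 3) (S.erase m)
        · omega
        · rw [Finset.card_erase_of_mem hmS]
          omega
        · intro t ht
          have htS := Finset.mem_of_mem_erase ht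
          have htne := Finset.ne_of_mem_erase ht
          obtain ⟨ht3, htT, f, hf⟩ := hS t htS
          have hlt : t < m := lt_of_le_of_ne (S.le_max' t htS) htne
          refine ⟨ht3, ?_, f, hf⟩
          have h2 : 3 * (t : ℤ) ≤ 2 * (m : ℤ) := by
            apply step (d : ℤ) (f : ℤ) (f' : ℤ) (t : ℤ) (m : ℤ) (by positivity) (by positivity)
              (by positivity) (by exact_mod_cast ht3) (by exact_mod_cast hlt)
              (by exact_mod_cast hf) (by exact_mod_cast hf')
          omega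
      have h3 : ((2 * m / 3 : ℕ) : ℝ) ≤ 2 * (m : ℝ) / 3 := by
        have : (3 * (2 * m / 3 : ℕ) : ℕ) ≤ 2 * m := Nat.mul_div_le _ _
        have h4 : (3 : ℝ) * ((2 * m / 3 : ℕ) : ℝ) ≤ 2 * (m : ℝ) := by exact_mod_cast this
        linarith
      have h5 : (m : ℝ) ≤ T := by exact_mod_cast hmT
      rw [pow_succ]
      linarith
  intro T S hT hS
  exact main S.card T S hT rfl hS

end Pool.Agent.Helper27.QF
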